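import Pool.Agent.V5helper87.CP.Counter

/-!
# Chudnovsky's conjecture for closed points over arbitrary fields

A closed point of projective space of dimension `n` over a field `K` is given by a geometric point
`p`, a line of `Ω ^ (n + 1)` where `Ω` is an algebraic closure of `K`. Its homogeneous prime ideal
`ptIdeal p` consists of the polynomials with coefficients in `K` which vanish on this line. For a
finite set `Z` of such points `idealOf Z` is the ideal `I_Z`, the intersection of the prime ideals,
`symPow Z m` is the symbolic power `I_Z^(m)`, the intersection of the symbolic powers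
`symb (ptIdeal p) m` of the prime ideals (`f` with `s f ∈ P^m` for some `s ∉ P`), `intPow Z m` is the
intersection of the ordinary powers of the prime ideals, and `alpha J` is the least degree of a
nonzero form in `J`. For `K`-rational points symbolic and ordinary powers of `P` are the same.

1. If all residue fields are separable over `K` (for example for `K`-rational points over any field)
   then `lim α(I_Z^(m))/m ≥ (α(I_Z) + n - 1)/n`, and the same for the intersections of ordinary
   powers.
2. If `K` is perfect this holds for all finite sets of closed points.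
3. It fails for closed points with inseparable residue field, in every positive characteristic `p`:
   over `K = 𝔽_p(s, t)` let `σ ^ p = s`, `τ ^ p = t` and let `P` be the closed point of projective
   space of dimension `n = 2 p - 1` with the homogeneous coordinates `τ ^ j`, `σ τ ^ j`, `j < p`.
   Then `α(I_P) = 2` and `lim α(I_P^(m))/m = 1 < (α(I_P) + n - 1)/n`. For `p = 2` this is the point
   `(1 : τ : σ : στ)` of three-space.

The proof of 1 reduces to the inequality for rational points over an algebraically closed field,
which is a theorem of the starting library `H580C`, by descent along a finite Galois extension. In 3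
the form `∑ j, t ^ (p-1-j) (x_{1j} ^ p - s x_{0j} ^ p)` of degree `p` is in the `p`-th symbolic power.
-/

set_option autoImplicit false

universe u

namespace Pool.Agent.Results.MP_3eef69_ag.ClosedPoints

open Pool.Agent.V5helper87.CP

/-- **Chudnovsky's inequality** holds for finite sets of closed points with separable residue fields
over an arbitrary field, in particular for all finite sets of closed points over perfect fields; it
fails for closed points with inseparable residue fields in every positive characteristic. -/
theorem result :
    (∀ (K : Type u) [Field K] (n : ℕ), 1 ≤ n → ∀ Z : Finset (GPt K n), Z.Nonempty →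
      (∀ p ∈ Z, SepPt p) →
      ∃ c c' : ℝ, IsWaldschmidt (symPow Z) c ∧ IsWaldschmidt (intPow Z) c' ∧
        ((alpha (idealOf Z) : ℝ) + n - 1) / n ≤ c ∧ c ≤ c') ∧
    (∀ (K : Type u) [Field K] [PerfectField K] (n : ℕ), 1 ≤ n → ∀ Z : Finset (GPt K n),
      Z.Nonempty →
      ∃ c c' : ℝ, IsWaldschmidt (symPow Z) c ∧ IsWaldschmidt (intPow Z) c' ∧
        ((alpha (idealOf Z) : ℝ) + n - 1) / n ≤ c ∧ c ≤ c') ∧
    (∀ p : ℕ, p.Prime → ∃ (K : Type) (_ : Field K) (_ : CharP K p) (P : GPt K (2 * p - 1)),
      alpha (idealOf {P}) = 2 ∧ IsWaldschmidt (symPow {P}) 1 ∧
        (1 : ℝ) < ((alpha (idealOf {P}) : ℝ) + (2 * p - 1 : ℕ) - 1) / (2 * p - 1 : ℕ)) := by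
  refine ⟨fun K _ n hn Z hZ hs => chud_sep hn Z hZ hs, fun K _ _ n hn Z hZ => ?_, fun p hp => ?_⟩
  · exact chud_sep hn Z hZ fun p _ i j _ => Algebra.IsSeparable.isSeparable K _
  · have : Fact p.Prime := ⟨hp⟩
    refine ⟨K0 p, inferInstance, inferInstance, PP0 p, alpha_eq p, wald_eq p, ?_⟩
    rw [alpha_eq p]
    have h2 : 1 ≤ 2 * p - 1 := by
      have := hp.two_le
      omega
    have h3 : (0 : ℝ) < (2 * p - 1 : ℕ) := by exact_mod_cast h2
    rw [lt_div_iff₀ h3]
    push_cast
    linarith

end Pool.Agent.Results.MP_3eef69_ag.ClosedPoints
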